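import Pool.Agent.V5helper43.NC.Stm

/-!
# Project NC: job CNTA

`cnt` is subadditive and monotone; every large `k` lies between two consecutive thresholds; `A` has at most
`34 * 2 ^ k` elements below `4 ^ k`.
-/

set_option autoImplicit false

open Finset

namespace Pool.Agent.V5helper85.NC

open Pool.Agent.V5helper43.NC

theorem finite_cnt (A : Set ℕ) (N : ℕ) : {a | a ∈ A ∧ a < N}.Finite :=
  (Set.finite_lt_nat N).subset fun _ h => h.2

theorem cnt_mono_right (A : Set ℕ) {N N' : ℕ} (h : N ≤ N') : cnt A N ≤ cnt A N' := by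
  unfold cnt
  apply Set.ncard_le_ncard _ (finite_cnt A N')
  rintro a ⟨h1, h2⟩
  exact ⟨h1, h2.trans_le h⟩

theorem cnt_union_le (A B : Set ℕ) (N : ℕ) : cnt (A ∪ B) N ≤ cnt A N + cnt B N := by
  unfold cnt
  refine le_trans (Set.ncard_le_ncard ?_ ((finite_cnt A N).union (finite_cnt B N)))
    (Set.ncard_union_le _ _)
  rintro a ⟨h1 | h1, h2⟩
  · exact Or.inl ⟨h1, h2⟩
  · exact Or.inr ⟨h1, h2⟩

/-- every `k ≥ m 2 + l 2` lies between two consecutive thresholds -/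
theorem exists_j (π : Par) {k : ℕ} (hk : π.m 2 + π.l 2 ≤ k) :
    ∃ j, π.m (j + 2) + π.l (j + 2) ≤ k ∧ k ≤ π.m (j + 3) + π.l (j + 3) := by
  classical
  have hex : ∃ j, k ≤ π.m (j + 3) + π.l (j + 3) := by
    refine ⟨k, ?_⟩
    have := π.m_ge (k + 3)
    omega
  set j := Nat.find hex with hj
  have h1 : k ≤ π.m (j + 3) + π.l (j + 3) := Nat.find_spec hex
  refine ⟨j, ?_, h1⟩
  rcases Nat.eq_zero_or_pos j with h0 | h0
  · rw [h0]
    exact hk
  · obtain ⟨i, hi⟩ : ∃ i, j = i + 1 := ⟨j - 1, by omega⟩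
    have h2 : ¬ k ≤ π.m (i + 3) + π.l (i + 3) := Nat.find_min hex (by omega)
    rw [hi]
    exact (not_le.1 h2).le

/-- the set `A` is the union of three sets -/
theorem A_eq {π : Par} (S : Sys π) : S.A = (S.A0 true ∪ S.A0 false) ∪ {e | ∃ i, e ∈ S.B i} := by
  ext a
  constructor
  · rintro (⟨c, hc⟩ | hb)
    · cases c
      · exact Or.inl (Or.inr hc)
      · exact Or.inl (Or.inl hc)
    · exact Or.inr hb
  · rintro ((hc | hc) | hb)
    · exact Or.inl ⟨true, hc⟩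
    · exact Or.inl ⟨false, hc⟩
    · exact Or.inr hb

theorem t_CNTA (h1 : S_CNT0) (h2 : S_CNTB) : S_CNTA := by
  intro π S k hk
  obtain ⟨j, hj1, hj2⟩ := exists_j π hk
  have hb := h2 π S j k hj1 hj2
  have ht := h1 π S true k
  have hf := h1 π S false k
  rw [A_eq S]
  have h3 := cnt_union_le (S.A0 true ∪ S.A0 false) {e | ∃ i, e ∈ S.B i} (4 ^ k)
  have h4 := cnt_union_le (S.A0 true) (S.A0 false) (4 ^ k)
  have h5 : 2 ^ 5 ≤ 2 ^ π.l (j + 1) := Nat.pow_le_pow_right (by norm_num) (π.five (j + 1))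
  have h6 : cnt {e | ∃ i, e ∈ S.B i} (4 ^ k) * 2 ^ 5 ≤ 1024 * 2 ^ k :=
    le_trans (Nat.mul_le_mul_left _ h5) hb
  norm_num at h6
  omega

end Pool.Agent.V5helper85.NC
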