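import Pool.Agent.V5helper85.NC.CNTA

/-!
# Project NC: job EXC

The exceptional numbers `n` with `rep S.A n ≠ 2`: they lie in the exceptions of MIX, of SAME, or are sums with a
supplementary element.
-/

set_option autoImplicit false

open Finset

namespace Pool.Agent.V5helper85.NC

open Pool.Agent.V5helper43.NC

/-- number of sums of an element of `A` and an element of `B` below `N` -/
theorem sums_ncard_le (A B : Set ℕ) (N : ℕ) :
    {n | n < N ∧ ∃ e ∈ A, ∃ f ∈ B, e + f = n}.ncard ≤ cnt A N * cnt B N := by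
  unfold cnt
  rw [← Set.ncard_prod]
  have hfin : ({a | a ∈ A ∧ a < N} ×ˢ {b | b ∈ B ∧ b < N} : Set (ℕ × ℕ)).Finite :=
    (finite_cnt A N).prod (finite_cnt B N)
  refine le_trans (Set.ncard_le_ncard ?_ (hfin.image fun p : ℕ × ℕ => p.1 + p.2))
    (Set.ncard_image_le hfin)
  rintro n ⟨hn, e, he, f, hf, rfl⟩
  exact ⟨(e, f), ⟨⟨he, by omega⟩, ⟨hf, by omega⟩⟩, rfl⟩

/-- outside of the three exceptional sets there are exactly two representations -/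
theorem rep_eq_two {π : Par} (S : Sys π) {n : ℕ} (h1 : rep2 (S.A0 true) (S.A0 false) n = 1)
    (h2 : ¬ ∃ c, ∃ a ∈ S.A0 c, ∃ b ∈ S.A0 c, a + b = n)
    (h3 : ¬ ∃ e ∈ {e | ∃ i, e ∈ S.B i}, ∃ f ∈ S.A, e + f = n) : rep S.A n = 2 := by
  unfold rep2 at h1
  rw [Set.ncard_eq_one] at h1
  obtain ⟨⟨a, b⟩, hab⟩ := h1
  have hmem : (a, b) ∈ {p : ℕ × ℕ | p.1 ∈ S.A0 true ∧ p.2 ∈ S.A0 false ∧ p.1 + p.2 = n} := by
    rw [hab]
    exact Set.mem_singleton _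
  obtain ⟨ha, hb, hsum⟩ := hmem
  simp only at ha hb hsum
  have hne : a ≠ b := by
    rintro rfl
    exact h2 ⟨true, a, ha, a, ha, hsum⟩
  have hset : {p : ℕ × ℕ | p.1 ∈ S.A ∧ p.2 ∈ S.A ∧ p.1 + p.2 = n} = {(a, b), (b, a)} := by
    ext ⟨x, y⟩
    simp only [Set.mem_ofPred_eq, Set.mem_insert_iff, Set.mem_singleton_iff]
    constructor
    · rintro ⟨hx, hy, hxy⟩
      have hx' : ∃ c, x ∈ S.A0 c := by
        rcases hx with hx | hx
        · exact hx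
        · exact absurd ⟨x, hx, y, hy, hxy⟩ h3
      have hy' : ∃ c, y ∈ S.A0 c := by
        rcases hy with hy | hy
        · exact hy
        · exact absurd ⟨y, hy, x, hx, by omega⟩ h3
      obtain ⟨c, hc⟩ := hx'
      obtain ⟨c', hc'⟩ := hy'
      cases c <;> cases c'
      · exact absurd ⟨false, x, hc, y, hc', hxy⟩ h2
      · right
        have : (y, x) ∈ {p : ℕ × ℕ | p.1 ∈ S.A0 true ∧ p.2 ∈ S.A0 false ∧ p.1 + p.2 = n} :=
          ⟨hc', hc, by simp only; omega⟩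
        rw [hab, Set.mem_singleton_iff, Prod.mk.injEq] at this
        rw [this.1, this.2]
      · left
        have : (x, y) ∈ {p : ℕ × ℕ | p.1 ∈ S.A0 true ∧ p.2 ∈ S.A0 false ∧ p.1 + p.2 = n} :=
          ⟨hc, hc', hxy⟩
        rw [hab, Set.mem_singleton_iff, Prod.mk.injEq] at this
        rw [this.1, this.2]
      · exact absurd ⟨true, x, hc, y, hc', hxy⟩ h2
    · rintro (h | h)
      · rw [Prod.mk.injEq] at h
        rw [h.1, h.2]
        exact ⟨Or.inl ⟨true, ha⟩, Or.inl ⟨false, hb⟩, hsum⟩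
      · rw [Prod.mk.injEq] at h
        rw [h.1, h.2]
        exact ⟨Or.inl ⟨false, hb⟩, Or.inl ⟨true, ha⟩, by omega⟩
  unfold rep
  rw [hset]
  apply Set.ncard_pair
  intro h
  rw [Prod.mk.injEq] at h
  exact hne h.1

theorem t_EXC (h1 : S_MIX) (h2 : S_SAME) (h3 : S_CNTB) (h4 : S_CNTA) : S_EXC := by
  intro π S j k hj1 hj2
  have e1 := h1 π S j k hj1 hj2
  have e2 := h2 π S j k hj1 hj2
  have e3 := h3 π S j k hj1 hj2
  have hk2 : π.m 2 + π.l 2 ≤ k :=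
    le_trans (Nat.add_le_add (π.m_mono (by omega)) (π.mono (by omega))) hj1
  have e4 := h4 π S k hk2
  set E1 := {n | n < 4 ^ k ∧ rep2 (S.A0 true) (S.A0 false) n ≠ 1} with hE1
  set E2 := {n | n < 4 ^ k ∧ ∃ c, ∃ a ∈ S.A0 c, ∃ b ∈ S.A0 c, a + b = n} with hE2
  set E3 := {n | n < 4 ^ k ∧ ∃ e ∈ {e | ∃ i, e ∈ S.B i}, ∃ f ∈ S.A, e + f = n} with hE3
  have f1 : E1.Finite := (Set.finite_lt_nat (4 ^ k)).subset fun _ h => h.1
  have f2 : E2.Finite := (Set.finite_lt_nat (4 ^ k)).subset fun _ h => h.1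
  have f3 : E3.Finite := (Set.finite_lt_nat (4 ^ k)).subset fun _ h => h.1
  have hE : {n | n < 4 ^ k ∧ rep S.A n ≠ 2} ⊆ (E1 ∪ E2) ∪ E3 := by
    rintro n ⟨hn, hr⟩
    by_contra hcon
    rw [Set.mem_union, Set.mem_union, not_or, not_or] at hcon
    obtain ⟨⟨c1, c2⟩, c3⟩ := hcon
    apply hr
    apply rep_eq_two S
    · by_contra h
      exact c1 ⟨hn, h⟩
    · intro h
      exact c2 ⟨hn, h⟩
    · intro h
      exact c3 ⟨hn, h⟩
  have hcard : {n | n < 4 ^ k ∧ rep S.A n ≠ 2}.ncard ≤ E1.ncard + E2.ncard + E3.ncard := by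
    refine le_trans (Set.ncard_le_ncard hE ((f1.union f2).union f3)) ?_
    refine le_trans (Set.ncard_union_le _ _) ?_
    exact Nat.add_le_add_right (Set.ncard_union_le _ _) _
  have e5 : E3.ncard ≤ cnt {e | ∃ i, e ∈ S.B i} (4 ^ k) * cnt S.A (4 ^ k) :=
    sums_ncard_le _ _ _
  -- numbers
  have g1 : E1.ncard * 4 ^ π.l j ≤ 40 * 4 ^ k * 3 ^ π.l j :=
    le_trans e1 (Nat.le_mul_of_pos_right _ (by positivity))
  have g2 : E2.ncard * 4 ^ π.l j ≤ 4 * 4 ^ k * 3 ^ π.l j := by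
    obtain ⟨t, ht⟩ : ∃ t, π.l (j + 2) = π.l j + t :=
      ⟨π.l (j + 2) - π.l j, by have := π.mono (show j ≤ j + 2 by omega); omega⟩
    rw [ht, pow_add, pow_add] at e2
    have h34 : 3 ^ t ≤ 4 ^ t := Nat.pow_le_pow_left (by norm_num) t
    have h5 : (E2.ncard * 4 ^ π.l j) * 4 ^ t ≤ (4 * 4 ^ k * 3 ^ π.l j) * 4 ^ t := by
      calc (E2.ncard * 4 ^ π.l j) * 4 ^ t = E2.ncard * (4 ^ π.l j * 4 ^ t) := by ring
        _ ≤ 4 * 4 ^ k * (3 ^ π.l j * 3 ^ t) := e2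
        _ = (4 * 4 ^ k * 3 ^ π.l j) * 3 ^ t := by ring
        _ ≤ _ := Nat.mul_le_mul_left _ h34
    exact Nat.le_of_mul_le_mul_right h5 (by positivity)
  have g3 : E3.ncard * 4 ^ π.l j ≤ 34816 * 4 ^ k * 3 ^ π.l j := by
    have h24 : (4 : ℕ) ^ k = 2 ^ k * 2 ^ k := by
      rw [← mul_pow]
      norm_num
    have h24' : (4 : ℕ) ^ π.l j = 2 ^ π.l j * 2 ^ π.l j := by
      rw [← mul_pow]
      norm_num
    have hl : 2 ^ π.l j ≤ 2 ^ π.l (j + 1) :=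
      Nat.pow_le_pow_right (by norm_num) (π.mono (Nat.le_succ j))
    have h23 : 2 ^ π.l j ≤ 3 ^ π.l j := Nat.pow_le_pow_left (by norm_num) _
    calc E3.ncard * 4 ^ π.l j
        = E3.ncard * 2 ^ π.l j * 2 ^ π.l j := by rw [h24']; ring
      _ ≤ (cnt {e | ∃ i, e ∈ S.B i} (4 ^ k) * cnt S.A (4 ^ k)) * 2 ^ π.l (j + 1) * 3 ^ π.l j :=
          Nat.mul_le_mul (Nat.mul_le_mul e5 hl) h23
      _ = (cnt {e | ∃ i, e ∈ S.B i} (4 ^ k) * 2 ^ π.l (j + 1)) * cnt S.A (4 ^ k) * 3 ^ π.l j := by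
          ring
      _ ≤ (1024 * 2 ^ k) * (34 * 2 ^ k) * 3 ^ π.l j :=
          Nat.mul_le_mul_right _ (Nat.mul_le_mul e3 e4)
      _ = 34816 * 4 ^ k * 3 ^ π.l j := by rw [h24]; ring
  calc {n | n < 4 ^ k ∧ rep S.A n ≠ 2}.ncard * 4 ^ π.l j
      ≤ (E1.ncard + E2.ncard + E3.ncard) * 4 ^ π.l j := Nat.mul_le_mul_right _ hcard
    _ = E1.ncard * 4 ^ π.l j + E2.ncard * 4 ^ π.l j + E3.ncard * 4 ^ π.l j := by ring
    _ ≤ 40 * 4 ^ k * 3 ^ π.l j + 4 * 4 ^ k * 3 ^ π.l j + 34816 * 4 ^ k * 3 ^ π.l j := by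
        exact Nat.add_le_add (Nat.add_le_add g1 g2) g3
    _ = 34860 * (4 ^ k * 3 ^ π.l j) := by ring
    _ ≤ 40000 * (4 ^ k * 3 ^ π.l j) := Nat.mul_le_mul_right _ (by norm_num)
    _ = 40000 * 4 ^ k * 3 ^ π.l j := by ring

end Pool.Agent.V5helper85.NC
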