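import Pool.Agent.V5helper85.NC.EXC

/-!
# Project NC: job FIN2

The final statement with `exp (√log)`, for the block lengths `l i = i + 5`.
-/

set_option autoImplicit false

open Finset

namespace Pool.Agent.V5helper85.NC

open Pool.Agent.V5helper43.NC

/-- the parameters `l i = i + 5` -/
def par : Par where
  l := fun i => i + 5
  mono := fun _ _ h => Nat.add_le_add_right h 5
  five := fun i => Nat.le_add_left 5 i

theorem par_l (i : ℕ) : par.l i = i + 5 := rfl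

theorem par_s (i : ℕ) : par.s i = 2 * (i + 5) := rfl

theorem par_m (i : ℕ) : par.m i = i * i + 9 * i := by
  induction i with
  | zero => rfl
  | succ i ih =>
    rw [Par.m_succ, ih, par_s]
    ring

theorem rep_finite (A : Set ℕ) (n : ℕ) :
    {p : ℕ × ℕ | p.1 ∈ A ∧ p.2 ∈ A ∧ p.1 + p.2 = n}.Finite := by
  refine (Finset.HasAntidiagonal.antidiagonal n).finite_toSet.subset ?_
  rintro p ⟨_, _, h⟩
  simpa using h

theorem one_le_rep {A : Set ℕ} {n : ℕ} (h : ∃ e ∈ A, ∃ f ∈ A, e + f = n) : 1 ≤ rep A n := by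
  obtain ⟨e, he, f, hf, h⟩ := h
  unfold rep
  rw [Nat.one_le_iff_ne_zero, Ne, Set.ncard_eq_zero (rep_finite A n)]
  intro h0
  have h1 : (e, f) ∈ {p : ℕ × ℕ | p.1 ∈ A ∧ p.2 ∈ A ∧ p.1 + p.2 = n} := ⟨he, hf, h⟩
  rw [h0] at h1
  exact h1

theorem count_bound (A : Set ℕ) (h : ∀ k, 29 ≤ k → cnt A (4 ^ k) ≤ 34 * 2 ^ k) (x : ℕ)
    (hx : 1 ≤ x) : ({a | a ∈ A ∧ a ≤ x}.ncard : ℝ) ≤ (34 * 2 ^ 30) * Real.sqrt x := by
  set k := Nat.log 4 x with hk
  have h1 : 4 ^ k ≤ x := Nat.pow_log_le_self 4 (by omega)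
  have h2 : x < 4 ^ (k + 1) := Nat.lt_pow_succ_log_self (by norm_num) x
  have h3 : {a | a ∈ A ∧ a ≤ x}.ncard ≤ cnt A (4 ^ (k + 30)) := by
    unfold cnt
    apply Set.ncard_le_ncard _ (finite_cnt A _)
    rintro a ⟨ha, hax⟩
    refine ⟨ha, ?_⟩
    have : 4 ^ (k + 1) ≤ 4 ^ (k + 30) := Nat.pow_le_pow_right (by norm_num) (by omega)
    omega
  have h4 := h (k + 30) (by omega)
  have h5 : (2 : ℝ) ^ k ≤ Real.sqrt x := by
    apply Real.le_sqrt_of_sq_le
    have : ((2 : ℝ) ^ k) ^ 2 = (4 : ℝ) ^ k := by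
      rw [← pow_mul, mul_comm, pow_mul]
      norm_num
    rw [this]
    exact_mod_cast h1
  calc ({a | a ∈ A ∧ a ≤ x}.ncard : ℝ) ≤ ((34 * 2 ^ (k + 30) : ℕ) : ℝ) := by
        exact_mod_cast h3.trans h4
    _ = (34 * 2 ^ 30) * 2 ^ k := by push_cast; ring
    _ ≤ (34 * 2 ^ 30) * Real.sqrt x := by gcongr

theorem exists_J (n : ℕ) (hn : 1 ≤ n) :
    ∃ J : ℕ, n < par.X (J + 1) ∧ (J : ℝ) ≤ Real.sqrt (Real.log n) := by
  classical
  have hex : ∃ J, n < par.X (J + 1) := by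
    refine ⟨n, ?_⟩
    unfold Par.X
    have h1 : n < 4 ^ n := Nat.lt_pow_self (by norm_num)
    have h2 : 4 ^ n ≤ 4 ^ (par.m (n + 1) + par.l (n + 1)) := by
      apply Nat.pow_le_pow_right (by norm_num)
      have := par.m_ge (n + 1)
      omega
    omega
  set J := Nat.find hex with hJ
  have h1 : n < par.X (J + 1) := Nat.find_spec hex
  refine ⟨J, h1, ?_⟩
  have hn' : (1 : ℝ) ≤ n := by exact_mod_cast hn
  rcases Nat.eq_zero_or_pos J with h0 | h0
  · rw [h0]
    simp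
  · obtain ⟨i, hi⟩ : ∃ i, J = i + 1 := ⟨J - 1, by omega⟩
    have h2 : ¬ n < par.X (i + 1) := Nat.find_min hex (by omega)
    rw [not_lt] at h2
    apply Real.le_sqrt_of_sq_le
    have h3 : 4 ^ (J * J) ≤ n := by
      refine le_trans ?_ h2
      unfold Par.X
      apply Nat.pow_le_pow_right (by norm_num)
      rw [par_m, hi]
      omega
    have h4 : ((4 : ℝ)) ^ (J * J) ≤ n := by exact_mod_cast h3
    have h5 : Real.log ((4 : ℝ) ^ (J * J)) ≤ Real.log n := Real.log_le_log (by positivity) h4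
    rw [Real.log_pow] at h5
    have h6 : (1 : ℝ) ≤ Real.log 4 := by
      rw [Real.le_log_iff_exp_le (by norm_num)]
      have := Real.exp_one_lt_d9
      linarith
    have h7 : (J : ℝ) ^ 2 ≤ ((J * J : ℕ) : ℝ) * Real.log 4 := by
      push_cast
      have : (0 : ℝ) ≤ (J : ℝ) * J := by positivity
      nlinarith
    linarith

theorem rep_bound {J r : ℕ} (h : r ≤ 8 * (J + 1) * par.zb J *
    2 ^ (par.s J + par.s (J + 1) + par.l (J + 2) + 7)) : r ≤ 608 * 2 ^ 46 * 2 ^ (11 * J) := by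
  refine h.trans ?_
  have h1 : J + 1 ≤ 2 ^ J := Nat.lt_two_pow_self
  have h2 : J + 1 + 2 * par.m J ≤ 19 * (2 ^ J * 2 ^ J) := by
    have h3 : (J + 1) * (J + 1) ≤ 2 ^ J * 2 ^ J := Nat.mul_le_mul h1 h1
    rw [par_m]
    nlinarith
  unfold Par.zb
  rw [par_s, par_s, par_l]
  have e1 : 2 * (J + 5) + 2 * (J + 1 + 5) + (J + 2 + 5) + 7 = 5 * J + 36 := by ring
  rw [e1]
  calc 8 * (J + 1) * (4 * 2 ^ (2 * (J + 5)) * (J + 1) * (J + 1 + 2 * par.m J)) * 2 ^ (5 * J + 36)
      ≤ 8 * 2 ^ J * (4 * 2 ^ (2 * (J + 5)) * 2 ^ J * (19 * (2 ^ J * 2 ^ J))) * 2 ^ (5 * J + 36) := by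
        gcongr
    _ = 608 * (2 ^ J * (2 ^ (2 * (J + 5)) * 2 ^ J * (2 ^ J * 2 ^ J)) * 2 ^ (5 * J + 36)) := by ring
    _ = 608 * 2 ^ (46 + 11 * J) := by
        rw [← pow_add, ← pow_add, ← pow_add, ← pow_add, ← pow_add]
        congr 2
        ring
    _ = 608 * 2 ^ 46 * 2 ^ (11 * J) := by rw [pow_add]; ring

theorem log_four_le : Real.log 4 ≤ 3 := by
  have := Real.log_le_sub_one_of_pos (show (0 : ℝ) < 4 by norm_num)
  linarith

theorem exc_bound (E : ℕ → Prop)
    (h : ∀ j k : ℕ, par.m (j + 2) + par.l (j + 2) ≤ k → k ≤ par.m (j + 3) + par.l (j + 3) →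
      {n | n < 4 ^ k ∧ E n}.ncard * 4 ^ par.l j ≤ 40000 * 4 ^ k * 3 ^ par.l j) (x : ℕ)
    (hx : 2 ≤ x) : ({n | n ≤ x ∧ E n}.ncard : ℝ) ≤
      480000 * (x * Real.exp (-((1 / 8) * Real.sqrt (Real.log x)))) := by
  set K := Nat.log 4 x with hK
  have h1 : 4 ^ K ≤ x := Nat.pow_log_le_self 4 (by omega)
  have h2 : x < 4 ^ (K + 1) := Nat.lt_pow_succ_log_self (by norm_num) x
  have hx0 : (0 : ℝ) < x := by exact_mod_cast (by omega : 0 < x)
  have hlog : Real.log x ≤ 3 * (K + 1) := by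
    have h3 : (x : ℝ) ≤ (4 : ℝ) ^ (K + 1) := by exact_mod_cast h2.le
    have h4 := Real.log_le_log hx0 h3
    rw [Real.log_pow] at h4
    have h5 := log_four_le
    have h6 : (0 : ℝ) ≤ ((K + 1 : ℕ) : ℝ) := Nat.cast_nonneg _
    push_cast at h4 h6
    nlinarith
  rcases Nat.lt_or_ge K 28 with hK2 | hK2
  · -- small x
    have h3 : {n | n ≤ x ∧ E n}.ncard ≤ x + 1 := by
      refine le_trans (Set.ncard_le_ncard (t := Set.Iic x) (fun n hn => hn.1) (Set.finite_Iic x)) ?_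
      rw [← Finset.coe_Iic, Set.ncard_coe_finset]
      simp
    have h4 : ({n | n ≤ x ∧ E n}.ncard : ℝ) ≤ x + 1 := by exact_mod_cast h3
    have h5 : Real.sqrt (Real.log x) ≤ 10 := by
      rw [show (10 : ℝ) = Real.sqrt (10 ^ 2) by
        rw [Real.sqrt_sq (by norm_num)]]
      apply Real.sqrt_le_sqrt
      have : (K : ℝ) + 1 ≤ 28 := by exact_mod_cast hK2
      linarith
    have h6 : Real.exp (-2) ≤ Real.exp (-((1 / 8) * Real.sqrt (Real.log x))) := by
      apply Real.exp_le_exp.2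
      linarith
    have h7 : (1 : ℝ) / 9 ≤ Real.exp (-2) := by
      have h8 : Real.exp 2 ≤ 9 := by
        have h9 : Real.exp 2 = Real.exp 1 * Real.exp 1 := by
          rw [← Real.exp_add]
          norm_num
        rw [h9]
        have := Real.exp_one_lt_d9
        have h10 := Real.exp_pos 1
        nlinarith
      rw [Real.exp_neg, one_div]
      exact inv_anti₀ (Real.exp_pos 2) h8
    have h8 : (2 : ℝ) ≤ x := by exact_mod_cast hx
    have h9 : (x : ℝ) * (1 / 9) ≤ x * Real.exp (-((1 / 8) * Real.sqrt (Real.log x))) :=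
      mul_le_mul_of_nonneg_left (h7.trans h6) hx0.le
    linarith
  · -- large x
    have h3 : par.m 2 + par.l 2 ≤ K + 1 := by
      rw [par_m, par_l]
      omega
    obtain ⟨j, hj1, hj2⟩ := exists_j par h3
    have h4 := h j (K + 1) hj1 hj2
    rw [par_l] at h4
    have h5 : {n | n ≤ x ∧ E n}.ncard ≤ {n | n < 4 ^ (K + 1) ∧ E n}.ncard := by
      apply Set.ncard_le_ncard
      · rintro n ⟨hn, he⟩
        exact ⟨by omega, he⟩
      · exact (Set.finite_lt_nat _).subset fun _ hh => hh.1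
    set N := {n | n < 4 ^ (K + 1) ∧ E n}.ncard with hN
    have h6 : (N : ℝ) * 4 ^ (j + 5) ≤ 40000 * 4 ^ (K + 1) * 3 ^ (j + 5) := by exact_mod_cast h4
    have h7 : (4 : ℝ) ^ (K + 1) ≤ 4 * x := by
      rw [pow_succ]
      have : ((4 : ℝ)) ^ K ≤ x := by exact_mod_cast h1
      linarith
    have h8 : (N : ℝ) ≤ 160000 * (x * (3 / 4) ^ (j + 5)) := by
      have h9 : (N : ℝ) * 4 ^ (j + 5) ≤ (160000 * (x * (3 / 4) ^ (j + 5))) * 4 ^ (j + 5) := by
        have e : (160000 * ((x : ℝ) * (3 / 4) ^ (j + 5))) * 4 ^ (j + 5)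
            = 40000 * (4 * x) * 3 ^ (j + 5) := by
          rw [div_pow]
          field_simp
          ring
        rw [e]
        refine h6.trans ?_
        gcongr
      exact le_of_mul_le_mul_right h9 (by positivity)
    have h10 : ((3 : ℝ) / 4) ^ (j + 5) ≤ Real.exp (-((j : ℝ) + 5) / 4) := by
      have h11 : (3 : ℝ) / 4 ≤ Real.exp (-1 / 4) := by
        have := Real.add_one_le_exp (-1 / 4 : ℝ)
        linarith
      calc ((3 : ℝ) / 4) ^ (j + 5) ≤ (Real.exp (-1 / 4)) ^ (j + 5) := by gcongr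
        _ = Real.exp (-((j : ℝ) + 5) / 4) := by
          rw [← Real.exp_nat_mul]
          congr 1
          push_cast
          ring
    have h12 : Real.sqrt (Real.log x) ≤ 2 * (j + 8) := by
      rw [Real.sqrt_le_left (by positivity)]
      have h13 : (K : ℝ) + 1 ≤ (j + 8) ^ 2 := by
        have h14 : K + 1 ≤ (j + 8) ^ 2 := by
          rw [par_m, par_l] at hj2
          nlinarith
        exact_mod_cast h14
      nlinarith
    have h15 : Real.exp (-((j : ℝ) + 5) / 4) ≤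
        3 * Real.exp (-((1 / 8) * Real.sqrt (Real.log x))) := by
      have h16 : Real.exp (-((j : ℝ) + 5) / 4) ≤
          Real.exp (1 + -((1 / 8) * Real.sqrt (Real.log x))) := by
        apply Real.exp_le_exp.2
        linarith
      rw [Real.exp_add] at h16
      have h17 : Real.exp 1 ≤ 3 := by
        have := Real.exp_one_lt_d9
        linarith
      have h18 := Real.exp_pos (-((1 / 8) * Real.sqrt (Real.log x)))
      nlinarith
    have h19 : ({n | n ≤ x ∧ E n}.ncard : ℝ) ≤ N := by exact_mod_cast h5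
    calc ({n | n ≤ x ∧ E n}.ncard : ℝ) ≤ N := h19
      _ ≤ 160000 * (x * (3 / 4) ^ (j + 5)) := h8
      _ ≤ 160000 * (x * (3 * Real.exp (-((1 / 8) * Real.sqrt (Real.log x))))) := by
          gcongr
          exact h10.trans h15
      _ = _ := by ring

theorem t_FIN2 (hS : S_SYS) (hC : S_COV) (hN : S_CNTA) (hE : S_EXC) (hR : S_REP) : S_FIN2 := by
  obtain ⟨S⟩ := hS par
  refine ⟨S.A, ⟨par.X 1, fun n hn => one_le_rep (hC par S n hn)⟩, ⟨34 * 2 ^ 30, ?_⟩,
    ⟨608 * 2 ^ 46, ?_⟩, ⟨480000, 1 / 8, by norm_num, ?_⟩⟩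
  · intro x hx
    apply count_bound S.A _ x hx
    intro k hk
    apply hN par S k
    rw [par_m, par_l]
    omega
  · intro n hn
    obtain ⟨J, hJ1, hJ2⟩ := exists_J n (by omega)
    have h1 := rep_bound (hR par S J n hJ1)
    have h2 : (rep S.A n : ℝ) ≤ 608 * 2 ^ 46 * 2 ^ (11 * J) := by exact_mod_cast h1
    have h3 : (2 : ℝ) ^ (11 * J) ≤ Real.exp (608 * 2 ^ 46 * Real.sqrt (Real.log n)) := by
      have h4 : (2 : ℝ) ≤ Real.exp 1 := by
        have := Real.add_one_le_exp (1 : ℝ)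
        linarith
      calc (2 : ℝ) ^ (11 * J) ≤ (Real.exp 1) ^ (11 * J) := by gcongr
        _ = Real.exp (11 * J) := by
            rw [← Real.exp_nat_mul]
            push_cast
            ring_nf
        _ ≤ _ := by
            apply Real.exp_le_exp.2
            have h5 : (0 : ℝ) ≤ Real.sqrt (Real.log n) := Real.sqrt_nonneg _
            nlinarith
    calc (rep S.A n : ℝ) ≤ 608 * 2 ^ 46 * 2 ^ (11 * J) := h2
      _ ≤ 608 * 2 ^ 46 * Real.exp (608 * 2 ^ 46 * Real.sqrt (Real.log n)) := by gcongr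
  · intro x hx
    exact exc_bound (fun n => rep S.A n ≠ 2) (fun j k h1 h2 => hE par S j k h1 h2) x hx

end Pool.Agent.V5helper85.NC
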